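import Pool.Agent.H19.Prufer
import Pool.Agent.H19.IntKEx

set_option autoImplicit false

namespace Pool.Agent.Results.MP_6e749b_al.Prufer

open Polynomial TensorProduct Pool.Agent.H19.IntK

universe u v w t

/-- `D` is almost Dedekind with finite residue fields, and over each prime element `p` of `D₀` the
ramification indices `v_P(p)` and the residue degrees `[D/P : D₀/p]` are bounded. -/
def IsADDB (D₀ D : Type*) [CommRing D₀] [CommRing D] [IsDomain D] [Algebra D₀ D] : Prop :=
  ∃ h : ∀ (P : Ideal D) [P.IsMaximal], IsDiscreteValuationRing (Localization.AtPrime P),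
    (∀ (P : Ideal D) [P.IsMaximal], Finite (D ⧸ P)) ∧
    ∀ p : D₀, Prime p → ∃ N : ℕ, ∀ (P : Ideal D) [P.IsMaximal] [P.LiesOver (Ideal.span {p})],
      (haveI := h P; IsDiscreteValuationRing.addVal (Localization.AtPrime P)
        (algebraMap D _ (algebraMap D₀ D p)) ≤ N) ∧
      Module.finrank (D₀ ⧸ Ideal.span {p}) (D ⧸ P) ≤ N

/-- A domain is Prüfer if all its localizations at prime ideals are valuation rings. -/
def IsPrufer (R : Type*) [CommRing R] [IsDomain R] : Prop :=
  ∀ (P : Ideal R) [P.IsPrime], ValuationRing (Localization.AtPrime P)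

section
variable {D K A : Type*} [CommRing D] [IsDomain D] [Field K] [Algebra D K] [IsFractionRing D K]
  [Ring A] [Algebra D A]

/-- constants -/
noncomputable def c : D →+* IntK D K A :=
  ((C : K →+* K[X]).comp (algebraMap D K)).codRestrict _ fun d => by
    simpa using map_mem (A := A) (C d)

lemma den' (f : K[X]) : ∃ d : D, d ≠ 0 ∧ ∃ g : IntK D K A, (g : K[X]) = (c d : IntK D K A) * f := by
  obtain ⟨d, hd, h⟩ := IsLocalization.integerNormalization_spec (nonZeroDivisors D) f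
  exact ⟨d, nonZeroDivisors.ne_zero hd, ⟨_, map_mem _⟩, h.trans (Algebra.smul_def _ _)⟩

lemma closed [IsIntegrallyClosed (IntK D K A)] {f : K[X]} (hf : IsIntegral (IntK D K A) f) :
    f ∈ IntK D K A := by
  let R := IntK D K A
  obtain ⟨d, hd, g, hg⟩ := den' (D := D) (A := A) f
  have c0 : (c d : R) ≠ 0 := fun e => hd (by simpa [c] using congrArg Subtype.val e)
  have hj : Function.Injective (IsScalarTower.toAlgHom R R (RatFunc K)) :=
    (IsFractionRing.injective K[X] (RatFunc K)).comp Subtype.val_injective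
  have h1 : IsFractionRing.liftAlgHom (K := FractionRing R) hj
      (algebraMap R _ g / algebraMap R _ (c d)) = algebraMap K[X] _ f := by
    rw [map_div₀, AlgHom.commutes, AlgHom.commutes]
    exact (div_eq_iff ((map_ne_zero_iff _ hj).mpr c0)).mpr
      ((congrArg (algebraMap K[X] _) (hg.trans (mul_comm _ _))).trans (map_mul _ _ _))
  obtain ⟨r, hr⟩ := IsIntegrallyClosed.isIntegral_iff.mp ((isIntegral_algHom_iff
    (IsFractionRing.liftAlgHom (K := FractionRing R) hj) (RingHom.injective _)).mp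
      (h1 ▸ hf.algebraMap))
  rw [eq_div_iff (by simpa using c0), ← map_mul] at hr
  have := congrArg Subtype.val (IsFractionRing.injective R _ hr)
  rw [hg, Subring.coe_mul, mul_comm] at this
  exact mul_left_cancel₀ (fun e => c0 (Subtype.ext e)) this ▸ r.2

omit [Algebra D K] [IsFractionRing D K] in
lemma valuationRing (R : Subring K[X]) (c : D →+* R)
    (den : ∀ f : K[X], ∃ d : D, d ≠ 0 ∧ ∃ g : R, (g : K[X]) = c d * f) (M : Ideal R) [M.IsPrime]
    (main : ∀ x y : R, (∃ d : D, d ≠ 0 ∧ c d ∈ Ideal.span {x, y}) →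
      ∃ (h : K[X]) (x' y' : R), h * x = x' ∧ h * y = y' ∧ (x' ∉ M ∨ y' ∉ M)) :
    ValuationRing (Localization.AtPrime M) := by
  have tot : ∀ x y : R, algebraMap R (Localization.AtPrime M) x ∣ algebraMap R _ y ∨
      algebraMap R (Localization.AtPrime M) y ∣ algebraMap R _ x := fun x y => by
    classical
    obtain ⟨x₁, y₁, hx, hy, h⟩ := extract_gcd (x : K[X]) y
    obtain ⟨a, b, h⟩ := (gcd_isUnit_iff _ _).mp h
    obtain ⟨d₁, h1, x₂, e1⟩ := den x₁
    obtain ⟨d₂, h2, y₂, e2⟩ := den y₁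
    obtain ⟨d₃, h3, a', e3⟩ := den a
    obtain ⟨d₄, h4, b', e4⟩ := den b
    obtain ⟨g, x', y', e5, e6, h5⟩ := main (c d₂ * x₂) (c d₁ * y₂) ⟨d₁ * d₂ * d₃ * d₄,
      mul_ne_zero (mul_ne_zero (mul_ne_zero h1 h2) h3) h4,
      Ideal.mem_span_pair.mpr ⟨c d₄ * a', c d₃ * b', Subtype.ext (by
        simp only [map_mul, Subring.coe_add, Subring.coe_mul, e1, e2, e3, e4]
        linear_combination ((c d₁ : R) * (c d₂ : R) * (c d₃ : R) * (c d₄ : R) : K[X]) * h)⟩⟩
    have h6 : x' * y = y' * x := Subtype.ext (by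
      simp only [Subring.coe_mul, ← e5, ← e6, e1, e2]
      linear_combination (g * (c d₁ : R) * (c d₂ : R) * x₁ : K[X]) * hy -
        (g * (c d₁ : R) * (c d₂ : R) * y₁ : K[X]) * hx)
    have h7 := congrArg (algebraMap R (Localization.AtPrime M)) h6
    rw [map_mul, map_mul] at h7
    exact h5.imp (fun h => (IsLocalization.map_units _ (⟨x', h⟩ : M.primeCompl)).dvd_mul_left.mp
      (Dvd.intro_left _ h7.symm)) fun h =>
      (IsLocalization.map_units _ (⟨y', h⟩ : M.primeCompl)).dvd_mul_left.mp (Dvd.intro_left _ h7)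
  refine ValuationRing.iff_dvd_total.mpr ⟨fun a b => ?_⟩
  obtain ⟨⟨x, s⟩, hx⟩ := IsLocalization.surj M.primeCompl a
  obtain ⟨⟨y, t⟩, hy⟩ := IsLocalization.surj M.primeCompl b
  have := tot x y
  rwa [← hx, ← hy, (IsLocalization.map_units _ s).mul_right_dvd,
    (IsLocalization.map_units _ t).mul_right_dvd, (IsLocalization.map_units _ s).dvd_mul_right,
    (IsLocalization.map_units _ t).dvd_mul_right] at this

lemma step [Module.Finite D A]
    (hD : ∀ (P : Ideal D) [P.IsMaximal], IsDiscreteValuationRing (Localization.AtPrime P))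
    (hR : ∀ f ∈ IntK' D K A, f ∈ IntK D K A) {p d : D} (hp : p ≠ 0) (hd : d ≠ 0) {N Q : ℕ}
    (hN : ∀ (P : Ideal D) [P.IsMaximal], p ∈ P → Finite (D ⧸ P) ∧ Nat.card (D ⧸ P) ≤ Q ∧
      (haveI := hD P; IsDiscreteValuationRing.addVal (Localization.AtPrime P)
        (algebraMap D _ p) ≤ N))
    (M : Ideal (IntK D K A)) [M.IsPrime] (hM : c p ∈ M) (x y : IntK D K A)
    (hxy : c d ∈ Ideal.span {x, y}) :
    ∃ (h : K[X]) (x' y' : IntK D K A), h * x = x' ∧ h * y = y' ∧ (x' ∉ M ∨ y' ∉ M) := by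
  let R := IntK D K A
  obtain ⟨k, t, s, hs⟩ := dvd_pow_unif hD hd p
  let L := AlgebraicClosure K
  let ι := {x : L × ValuationSubring L // (∃ a : A, aeval x.1 (minpoly K ((1 : K) ⊗ₜ[D] a)) = 0)
    ∧ ∀ d, algebraMap D L d ∈ x.2}
  let w : ∀ i : ι, Valuation K[X] i.1.2.ValueGroup := fun i =>
    i.1.2.valuation.comap (aeval i.1.1 : K[X] →ₐ[K] L).toRingHom
  have mem : ∀ f, f ∈ R ↔ ∀ i, w i f ≤ 1 := fun f => ⟨fun hf ⟨⟨α, V⟩, ⟨a, ha⟩, hV⟩ =>
    (V.valuation_le_one_iff _).mpr ((integral_iff _ f).mp (le_IntK' hf a) α ha V hV),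
    fun hf => hR f fun a => (integral_iff (L := L) _ f).mpr fun α ha V hV =>
      (V.valuation_le_one_iff _).mp (hf ⟨(α, V), ⟨a, ha⟩, hV⟩)⟩
  have wc : ∀ i (d : D), w i (c d : R) =
      i.1.2.valuation.comap (algebraMap K L) (algebraMap D K d) := fun i d => by simp [w, c]
  have hl := fun (i : ι) (hi : w i (c p : R) < 1) => loc hD (i.1.2.valuation.comap (algebraMap K L))
    (fun d => wc i d ▸ (mem _).mp (c d : R).2 i) hp (wc i _ ▸ hi)
  have hμ : ∀ (i : ι) (f : K[X]), ∃ μ : K[X], μ ≠ 0 ∧ aeval (aeval i.1.1 f) μ = 0 ∧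
      μ.natDegree ≤ Module.finrank K (K ⊗[D] A) := fun ⟨_, ⟨a, ha⟩, _⟩ f =>
    ⟨_, minpoly.ne_zero (IsIntegral.of_finite K _), root_aeval ha (minpoly.aeval K _),
      minpoly.natDegree_le _⟩
  generalize Module.finrank K (K ⊗[D] A) = n at hμ
  refine core R _ w (c p) (C (algebraMap D K p)⁻¹) (by simp [c, ← C_mul, hp])
    (n.factorial * N.factorial - 1) (Q ^ n).factorial k (Nat.factorial_ne_zero _) mem
    (fun i f h hf => ?_) (fun i f h hf => ?_) x y (fun i h => ?_) M hM
  · obtain ⟨P, hP, γ, e, h1, -, -, -, h2⟩ := hl i h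
    obtain ⟨μ, h3, h4, h5⟩ := hμ i f
    obtain ⟨_, h6, -⟩ := hN P ((h1 _).mp (wc i _ ▸ h))
    simpa [w] using unit_pow i.1.2 i.2.2 P h1 (fun k hk => by
      simpa [← IsScalarTower.algebraMap_apply] using h2 k hk) h3 hf h4 h5 h6
  · obtain ⟨P, hP, γ, e, h1, h2, h6, h7, -⟩ := hl i h
    obtain ⟨μ, h3, h4, h5⟩ := hμ i f
    have h8 := (hN P ((h1 _).mp (wc i _ ▸ h))).2.2
    rw [h6, Nat.cast_le] at h8
    rw [wc] at h ⊢
    have h9 : 0 < e := Nat.pos_of_ne_zero (by rintro rfl; simp [h7] at h)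
    rw [Nat.sub_add_cancel (Nat.mul_pos n.factorial_pos N.factorial_pos), h7]
    exact val_pow i.1.2.valuation h2 (by rintro rfl; simp [h9.ne', hp] at h7) h3
      (fun e => hf (by simp [w, e])) h4 h5 h9 h8
  · obtain ⟨a, b, hab⟩ := Ideal.mem_span_pair.mp hxy
    have le := fun z : R => (mem z).mp z.2 i
    have h1 := congrArg (fun z => w i (c z : R)) hs
    simp only [map_mul, map_pow, map_sub, map_one, Subring.coe_mul, Subring.coe_pow,
      AddSubgroupClass.coe_sub, Subring.coe_one] at h1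
    rw [Valuation.map_one_sub_of_lt _ (by
      rw [map_mul]; exact (mul_le_of_le_one_left' (le _)).trans_lt h), one_mul, ← hab] at h1
    refine le_max_iff.mp (h1.le.trans ((mul_le_of_le_one_right' (le _)).trans
      (((w i).map_add _ _).trans (max_le_max ?_ ?_)))) <;>
      exact (map_mul _ _ _).le.trans (mul_le_of_le_one_left' (le _))

end

/-- For an ADDB-domain `D`, if `Int_K(A)` is integrally closed then it is Prüfer. -/
theorem result (D₀ : Type t) (D : Type u) (K : Type v) (A : Type w) [CommRing D₀] [IsDomain D₀]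
    [IsPrincipalIdealRing D₀] [Infinite D₀] [CommRing D] [IsDomain D] [Algebra D₀ D]
    [FaithfulSMul D₀ D] [Field K] [Algebra D K] [IsFractionRing D K] [Ring A] [Algebra D A]
    [FaithfulSMul D A] [Module.IsTorsionFree D A] [Module.Finite D A] (hD : IsADDB D₀ D)
    (h : IsIntegrallyClosed (IntK D K A)) : IsPrufer (IntK D K A) := by
  obtain ⟨hD, hfin, hb⟩ := hD
  have : IsIntegrallyClosed D := .of_localization_maximal fun P _ _ => have := hD P; inferInstance
  intro M hM
  refine valuationRing _ c den' M fun x y ⟨d, hd, hxy⟩ => ?_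
  by_cases hdM : c d ∈ M
  swap
  · by_contra! H
    have := H 1 x y (one_mul _) (one_mul _)
    exact hdM (Ideal.span_le.mpr (by simp [Set.insert_subset_iff, this]) hxy)
  obtain ⟨P, hP, hMP⟩ := (M.comap (c (D := D))).exists_le_maximal (Ideal.comap_ne_top _ hM.ne_top)
  have := hfin P
  have := hD P
  have h1 : P.under D₀ ≠ ⊥ := fun e => not_injective_infinite_finite
    ((Ideal.Quotient.mk P).comp (algebraMap D₀ D)) ((RingHom.injective_iff_ker_eq_bot _).mpr
      (by rw [← RingHom.comap_ker, Ideal.mk_ker]; exact e))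
  obtain ⟨p, hp⟩ := (IsPrincipalIdealRing.principal (P.under D₀)).principal
  have hp0 : p ≠ 0 := fun e => h1 (by simp [hp, e])
  have hpp : Prime p := (Ideal.span_singleton_prime hp0).mp (hp ▸ Ideal.IsPrime.under D₀ P :)
  obtain ⟨N, hN⟩ := hb p hpp
  have hm := PrincipalIdealRing.isMaximal_of_irreducible hpp.irreducible
  refine step hD (fun f hf => closed (integral_of_mem hf)) (p := algebraMap D₀ D p)
    (by simpa using hp0) hd (N := N) (Q := Nat.card (D₀ ⧸ Ideal.span {p}) ^ N) (fun Q hQ h => ?_)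
    M ?_ x y hxy
  · have : Q.LiesOver (Ideal.span {p}) := ⟨hm.eq_of_le (Ideal.comap_ne_top _ hQ.ne_top)
      ((Ideal.span_singleton_le_iff_mem _).mpr h)⟩
    have := hfin Q
    refine ⟨this, ?_, (hN Q).1⟩
    let := Ideal.Quotient.field (Ideal.span {p})
    have := Finite.of_injective _ (algebraMap (D₀ ⧸ Ideal.span {p}) (D ⧸ Q)).injective
    rw [Module.natCard_eq_pow_finrank (K := D₀ ⧸ Ideal.span {p})]
    exact Nat.pow_le_pow_right Nat.card_pos (hN Q).2
  · obtain ⟨j, s, hs, h2⟩ := dvd_pow_loc (p := algebraMap D₀ D p) hd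
      (hp.ge (Ideal.mem_span_singleton_self p) :)
    exact (Ideal.comap_isPrime c M).mem_of_pow_mem j (((Ideal.comap_isPrime c M).mem_or_mem
      (Ideal.mem_of_dvd _ h2 hdM)).resolve_left fun h => hs (hMP h))

end Pool.Agent.Results.MP_6e749b_al.Prufer
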